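import Pool.Agent.Q188.PD.Trans

/-!
# Transitivity of `β x + α` mod 1 for small slopes (MP_ea58a7_an, Q1)
-/

set_option autoImplicit false

open Set Filter Topology Function

namespace Pool.Agent.Results.MP_ea58a7_an.TransitiveSmallSlopes

/-- The map `x ↦ β x + α` (mod 1) of `[0,1)` into itself. -/
noncomputable def betaMap (α β : ℝ) : Ico (0 : ℝ) 1 → Ico (0 : ℝ) 1 := fun x =>
  ⟨Int.fract (β * x + α), Int.fract_nonneg _, Int.fract_lt_one _⟩

/-- Topological transitivity of a map `f` of a topological space `X` into itself. -/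
def TopTransitive {X : Type*} [TopologicalSpace X] (f : X → X) : Prop :=
  ∀ U V : Set X, IsOpen U → U.Nonempty → IsOpen V → V.Nonempty →
    ∃ n : ℕ, (f^[n] '' U ∩ V).Nonempty

lemma coe_iterate {α β : ℝ} (hβ : 1 < β) (hα : 0 ≤ α) (hαβ : α + β ≤ 2) (n : ℕ)
    (x : Ico (0 : ℝ) 1) :
    (((betaMap α β)^[n] x : Ico (0 : ℝ) 1) : ℝ) = (Pool.Agent.Q188.PD.T α β)^[n] (x : ℝ) := by
  induction n with
  | zero => rfl
  | succ n ih =>
    rw [iterate_succ_apply', iterate_succ_apply', ← ih]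
    set y := (betaMap α β)^[n] x with hy
    change Int.fract (β * (y : ℝ) + α) = Pool.Agent.Q188.PD.T α β (y : ℝ)
    have h0 : 0 ≤ β * (y : ℝ) := mul_nonneg (by linarith) y.2.1
    have h1 : β * (y : ℝ) < β := by nlinarith [y.2.2]
    unfold Pool.Agent.Q188.PD.T
    split_ifs with h
    · exact Int.fract_eq_self.2 ⟨by linarith, h⟩
    · push Not at h
      rw [← Int.fract_sub_one]
      exact Int.fract_eq_self.2 ⟨by linarith, by linarith⟩

lemma exists_Ioo {U : Set (Ico (0 : ℝ) 1)} (hU : IsOpen U) (hne : U.Nonempty) :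
    ∃ u v : ℝ, 0 ≤ u ∧ u < v ∧ v ≤ 1 ∧ ∀ y : Ico (0 : ℝ) 1, (y : ℝ) ∈ Ioo u v → y ∈ U := by
  obtain ⟨x, hx⟩ := hne
  obtain ⟨δ, hδ, hball⟩ := Metric.isOpen_iff.1 hU x hx
  refine ⟨x, min (x + δ) 1, x.2.1, lt_min (by linarith) x.2.2, min_le_right _ _, fun y hy => ?_⟩
  apply hball
  rw [Metric.mem_ball, Subtype.dist_eq, Real.dist_eq, abs_of_pos (by linarith [hy.1])]
  have := hy.2.trans_le (min_le_left _ _)
  linarith

/-- For `(α, β)` with `1 < β ≤ √2`, `α ≥ 0`, `α + β ≤ 2` and `α ≤ 1 - 1/β` or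
`α ≥ 1 + 1/β - β`, the map `β x + α` (mod 1) is topologically transitive. -/
theorem result (α β : ℝ) (hβ : 1 < β) (hα : 0 ≤ α) (hαβ : α + β ≤ 2) (hβ2 : β ≤ Real.sqrt 2)
    (hC : α ≤ 1 - 1 / β ∨ 1 + 1 / β - β ≤ α) : TopTransitive (betaMap α β) := by
  have hsq : β * β < β + 1 := by
    have h1 : β * β ≤ Real.sqrt 2 * Real.sqrt 2 := mul_self_le_mul_self (by linarith) hβ2
    rw [Real.mul_self_sqrt (by norm_num)] at h1
    linarith
  have hTr := Pool.Agent.Q188.PD.tr_main hβ hα hαβ hsq hC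
  intro U V hU hUne hV hVne
  obtain ⟨u, v, hu, huv, hv, hUsub⟩ := exists_Ioo hU hUne
  obtain ⟨w₁, w₂, hw₁, hw, hw₂, hVsub⟩ := exists_Ioo hV hVne
  obtain ⟨n, x, hx, hxn⟩ := hTr u v w₁ w₂ hu huv hv hw₁ hw hw₂
  have hxI : x ∈ Ico (0 : ℝ) 1 := ⟨by linarith [hx.1], by linarith [hx.2]⟩
  refine ⟨n, (betaMap α β)^[n] ⟨x, hxI⟩, ⟨⟨x, hxI⟩, hUsub _ hx, rfl⟩, hVsub _ ?_⟩
  rw [coe_iterate hβ hα hαβ]
  exact hxn

end Pool.Agent.Results.MP_ea58a7_an.TransitiveSmallSlopes
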